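import Pool.Agent.H41.PS.Stm

set_option autoImplicit false
set_option maxRecDepth 100000

/-! Project PS (helper41), job MASK: the masks are correct. -/

namespace Pool.Agent.H190.PS

open Pool.Agent.H41.PS

/-- a mask with `m + (m shifted by s) = all ones` (without carry) is periodic -/
theorem maskOK_of {m j : ℕ} (hj : j < 8) (hm : m < 2 ^ 8192)
    (h : m ^^^ ((m <<< (2 ^ j)) % 2 ^ 8192) = 2 ^ 8192 - 1) : MaskOK m (2 ^ j) := by
  refine ⟨j, hj, rfl, hm, ?_⟩
  intro i
  induction i using Nat.strong_induction_on with
  | _ i ih =>
    intro hi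
    have h1 := congrArg (fun x => x.testBit i) h
    simp only [Nat.testBit_xor, Nat.testBit_mod_two_pow, Nat.testBit_shiftLeft,
      Nat.testBit_two_pow_sub_one, hi, decide_true, Bool.true_and] at h1
    by_cases hs : 2 ^ j ≤ i
    · have h2 := ih (i - 2 ^ j) (by have := Nat.two_pow_pos j; omega)
        (lt_of_le_of_lt (Nat.sub_le _ _) hi)
      rw [h2] at h1
      have h3 : i.testBit j = !(i - 2 ^ j).testBit j := by
        conv_lhs => rw [show i = 2 ^ j + (i - 2 ^ j) by omega]
        rw [Nat.testBit_two_pow_add_eq]
      rw [h3]
      have hge : decide (i ≥ 2 ^ j) = true := decide_eq_true hs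
      rw [hge] at h1
      revert h1
      cases m.testBit i <;> cases (i - 2 ^ j).testBit j <;> simp
    · have h3 : i.testBit j = false := Nat.testBit_lt_two_pow (by omega)
      have hge : decide (i ≥ 2 ^ j) = false := decide_eq_false (by omega)
      rw [hge] at h1
      rw [h3]
      simpa using h1

theorem t_MASK : S_MASK := by
  refine ⟨?_, ?_, ?_, ?_, ?_, ?_, ?_, ?_, trivial⟩
  · exact maskOK_of (m := M7) (j := 7) (by decide) (by decide +kernel) (by decide +kernel)
  · exact maskOK_of (m := M6) (j := 6) (by decide) (by decide +kernel) (by decide +kernel)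
  · exact maskOK_of (m := M5) (j := 5) (by decide) (by decide +kernel) (by decide +kernel)
  · exact maskOK_of (m := M4) (j := 4) (by decide) (by decide +kernel) (by decide +kernel)
  · exact maskOK_of (m := M3) (j := 3) (by decide) (by decide +kernel) (by decide +kernel)
  · exact maskOK_of (m := M2) (j := 2) (by decide) (by decide +kernel) (by decide +kernel)
  · exact maskOK_of (m := M1) (j := 1) (by decide) (by decide +kernel) (by decide +kernel)
  · exact maskOK_of (m := M0) (j := 0) (by decide) (by decide +kernel) (by decide +kernel)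

end Pool.Agent.H190.PS
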